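import Pool.Agent.Helper72.HG.Defs
set_option autoImplicit false

/-!
The Euler characteristic inequality over a division ring.
-/

open Matrix MulOpposite
open Pool.Agent.Helper72.HG Pool.Agent.Helper35.SH

namespace Pool.Agent.Helper28.HG

variable {R : Type} [CommRing R] {G : Type} [Group G] {L : Type} [DivisionRing L] [Algebra R L]

noncomputable section

/-- the extension of a homomorphism to the group algebra -/
def ex (ρ : G →* L) : MonoidAlgebra R G →ₐ[R] L :=
  MonoidAlgebra.lift R L G ρ

lemma ex_single (ρ : G →* L) (g : G) (q : R) :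
    ex ρ (MonoidAlgebra.single g q) = q • ρ g := by
  unfold ex
  rw [MonoidAlgebra.lift_single]

lemma twist_single (w : G →* ℤˣ) (g : G) (q : R) :
    twist R w (MonoidAlgebra.single g q) = q • MonoidAlgebra.single g (((w g : ℤ) : R)) := by
  unfold twist
  rw [MonoidAlgebra.lift_single]
  rfl

lemma ex_antipode (w : G →* ℤˣ) (ρ : G →* L) (x : MonoidAlgebra R G) :
    ex (opp w ρ) (HopfAlgebra.antipode R (twist R w x)) = op (ex ρ x) := by
  induction x using MonoidAlgebra.induction_linear with
  | zero => simp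
  | add f g hf hg => rw [map_add, map_add, map_add, map_add, hf, hg, op_add]
  | single g q =>
    rw [twist_single, map_smul, map_smul, MonoidAlgebra.antipode_single, ex_single, ex_single]
    have h1 : HopfAlgebra.antipode R (((w g : ℤ) : R)) = ((w g : ℤ) : R) := by simp
    rw [h1, op_smul]
    congr 1
    show (((w g : ℤ) : R)) • op (((w g⁻¹ : ℤ)) • ρ g⁻¹⁻¹) = op (ρ g)
    rw [← op_smul, inv_inv]
    congr 1
    rw [Int.cast_smul_eq_zsmul, smul_smul, ← Units.val_mul, ← map_mul, mul_inv_cancel, map_one,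
      Units.val_one, one_smul]

variable {a b c : Type} [Fintype a] [Fintype b] [Fintype c]

/-- the map of column vectors given by a matrix over the group algebra -/
def mp (ρ : G →* L) (D : Matrix b a (MonoidAlgebra R G)) : (a → L) →ₗ[Lᵐᵒᵖ] (b → L) where
  toFun f i := ∑ j, ex ρ (D i j) * f j
  map_add' f f' := by
    ext i
    simp only [Pi.add_apply, mul_add, Finset.sum_add_distrib]
  map_smul' x f := by
    ext i
    simp only [Pi.smul_apply, MulOpposite.smul_eq_mul_unop, RingHom.id_apply, Finset.sum_mul,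
      mul_assoc]

omit [Fintype b] in
lemma mp_apply (ρ : G →* L) (D : Matrix b a (MonoidAlgebra R G)) (f : a → L) (i : b) :
    mp ρ D f i = ∑ j, ex ρ (D i j) * f j := rfl

/-- the evaluation of `R[G]^a` on `a → L` -/
def ev (ρ : G →* L) (f : a → L) (v : a → MonoidAlgebra R G) : L :=
  ∑ j, ex ρ (v j) * f j

variable {ρ : G →* L}

lemma ev_add (f : a → L) (v v' : a → MonoidAlgebra R G) :
    ev ρ f (v + v') = ev ρ f v + ev ρ f v' := by
  simp only [ev, Pi.add_apply, map_add, add_mul, Finset.sum_add_distrib]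

lemma ev_smul (f : a → L) (x : MonoidAlgebra R G) (v : a → MonoidAlgebra R G) :
    ev ρ f (x • v) = ex ρ x * ev ρ f v := by
  simp only [ev, Pi.smul_apply, smul_eq_mul, map_mul, Finset.mul_sum, mul_assoc]

lemma ev_zero (f : a → L) : ev ρ f (0 : a → MonoidAlgebra R G) = 0 := by
  simp [ev]

lemma ev_sub (f : a → L) (v v' : a → MonoidAlgebra R G) :
    ev ρ f (v - v') = ev ρ f v - ev ρ f v' := by
  simp only [ev, Pi.sub_apply, map_sub, sub_mul, Finset.sum_sub_distrib]

lemma ev_add_left (f f' : a → L) (v : a → MonoidAlgebra R G) :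
    ev ρ (f + f') v = ev ρ f v + ev ρ f' v := by
  simp only [ev, Pi.add_apply, mul_add, Finset.sum_add_distrib]

lemma ev_smul_left (x : Lᵐᵒᵖ) (f : a → L) (v : a → MonoidAlgebra R G) :
    ev ρ (x • f) v = x • ev ρ f v := by
  simp only [ev, Pi.smul_apply, MulOpposite.smul_eq_mul_unop, Finset.sum_mul, mul_assoc]

lemma ev_vecMul (D : Matrix b a (MonoidAlgebra R G)) (f : a → L)
    (w : b → MonoidAlgebra R G) :
    ev ρ f (w ᵥ* D) = ev ρ (mp ρ D f) w := by
  simp only [ev, mp_apply, Matrix.vecMul, dotProduct, map_sum, map_mul, Finset.sum_mul,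
    Finset.mul_sum, mul_assoc]
  exact Finset.sum_comm

lemma ev_single [DecidableEq a] (f : a → L) (j : a) :
    ev ρ f (Pi.single j (1 : MonoidAlgebra R G)) = f j := by
  unfold ev
  rw [Finset.sum_eq_single j]
  · simp
  · intro i _ hij
    simp [Pi.single_eq_of_ne hij]
  · simp

/-- the augmentation of `R[G]^a` with the given images of the basis vectors -/
def aug (t : a → R) (v : a → MonoidAlgebra R G) : R :=
  ∑ j, t j * Coalgebra.counit (v j)

lemma aug_add (t : a → R) (v v' : a → MonoidAlgebra R G) :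
    aug t (v + v') = aug t v + aug t v' := by
  simp only [aug, Pi.add_apply, map_add, mul_add, Finset.sum_add_distrib]

lemma aug_sub (t : a → R) (v v' : a → MonoidAlgebra R G) :
    aug t (v - v') = aug t v - aug t v' := by
  simp only [aug, Pi.sub_apply, map_sub, mul_sub, Finset.sum_sub_distrib]

lemma counit_mul (x y : MonoidAlgebra R G) :
    (Coalgebra.counit (x * y) : R) = Coalgebra.counit x * Coalgebra.counit y :=
  Bialgebra.counit_mul x y

omit [Group G] in
lemma counit_single_one (g : G) :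
    (Coalgebra.counit (MonoidAlgebra.single g (1 : R)) : R) = 1 := by
  simp

lemma aug_smul (t : a → R) (x : MonoidAlgebra R G) (v : a → MonoidAlgebra R G) :
    aug t (x • v) = Coalgebra.counit x * aug t v := by
  simp only [aug, Pi.smul_apply, smul_eq_mul, counit_mul, Finset.mul_sum]
  refine Finset.sum_congr rfl fun j _ => ?_
  ring

lemma aug_ratsmul (t : a → R) (q : R) (v : a → MonoidAlgebra R G) :
    aug t (q • v) = q * aug t v := by
  simp only [aug, Pi.smul_apply, map_smul, smul_eq_mul, Finset.mul_sum]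
  refine Finset.sum_congr rfl fun j _ => ?_
  ring

lemma ev_ratsmul (f : a → L) (q : R) (v : a → MonoidAlgebra R G) :
    ev ρ f (q • v) = q • ev ρ f v := by
  simp only [ev, Pi.smul_apply, map_smul, smul_mul_assoc, Finset.smul_sum]

lemma ev_zero_left (v : a → MonoidAlgebra R G) : ev ρ (0 : a → L) v = 0 := by
  simp [ev]

omit [Algebra R L] in
lemma finite_op : Module.Finite Lᵐᵒᵖ L := by
  refine Module.Finite.of_surjective (LinearMap.toSpanSingleton Lᵐᵒᵖ L 1) fun y => ⟨op y, ?_⟩
  simp

omit [Algebra R L] in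
lemma finrank_op : Module.finrank Lᵐᵒᵖ L = 1 := by
  have e : Lᵐᵒᵖ ≃ₗ[Lᵐᵒᵖ] L := LinearEquiv.ofBijective (LinearMap.toSpanSingleton Lᵐᵒᵖ L 1)
    ⟨by
      refine (injective_iff_map_eq_zero _).2 ?_
      intro x hx
      simpa using hx, fun y => ⟨op y, by simp⟩⟩
  rw [← e.finrank_eq, Module.finrank_self]

omit [Algebra R L] in
lemma finrank_op_pi (a : Type) [Fintype a] : Module.finrank Lᵐᵒᵖ (a → L) = Fintype.card a := by
  have := finite_op (L := L)
  rw [Module.finrank_pi_fintype]
  simp [finrank_op]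

/-- the key dimension estimate -/
theorem finrank_Z1_ge (ρ : G →* L) {D₁ : Matrix b a (MonoidAlgebra R G)}
    {D₂ : Matrix c b (MonoidAlgebra R G)} (h : IsStart D₁ D₂) [Module.Finite Lᵐᵒᵖ (Z1 ρ)] :
    Fintype.card b + 1 ≤
      Module.finrank Lᵐᵒᵖ (Z1 ρ) + Module.finrank Lᵐᵒᵖ (LinearMap.range (mp ρ D₂)) +
        Fintype.card a := by
  classical
  have := finite_op (L := L)
  obtain ⟨⟨t, ⟨p₀, hp₀'⟩, h1⟩, h2⟩ := h
  have h1' : ∀ v : a → MonoidAlgebra R G, aug t v = 0 ↔ ∃ w, w ᵥ* D₁ = v := h1
  have hp₀ : aug t p₀ = 1 := hp₀'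
  -- a lift
  have hex : ∀ v : a → MonoidAlgebra R G, ∃ w : b → MonoidAlgebra R G,
      w ᵥ* D₁ = v - aug t v • p₀ := by
    intro v
    refine (h1' _).1 ?_
    rw [aug_sub, aug_ratsmul, hp₀, mul_one, sub_self]
  choose W hW using hex
  -- elements of the kernel of the second map
  have hker : ∀ (z : b → L), mp ρ D₂ z = 0 → ∀ w w' : b → MonoidAlgebra R G,
      w ᵥ* D₁ = w' ᵥ* D₁ → ev ρ z w = ev ρ z w' := by
    intro z hz w w' hww
    have h3 : (w - w') ᵥ* D₁ = 0 := by rw [Matrix.sub_vecMul, hww, sub_self]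
    obtain ⟨u, hu⟩ := (h2 _).1 h3
    have h4 : ev ρ z (w - w') = 0 := by
      rw [← hu, ev_vecMul, hz, ev_zero_left]
    rw [ev_sub, sub_eq_zero] at h4
    exact h4
  -- the crossed homomorphism
  let sg : G → MonoidAlgebra R G := fun g => MonoidAlgebra.single g 1
  have hsg : ∀ g h, sg (g * h) = sg g * sg h := fun g h => by
    simp [sg, MonoidAlgebra.single_mul_single]
  have haug : ∀ g, aug t (sg g • p₀) = 1 := fun g => by
    rw [aug_smul, counit_single_one, hp₀, mul_one]
  have hext : ∀ g, ex ρ (sg g) = ρ g := fun g => by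
    rw [ex_single, one_smul]
  let C : (b → L) → G → L := fun z g => ev ρ z (W (sg g • p₀))
  have hC : ∀ z, mp ρ D₂ z = 0 → ∀ g h, C z (g * h) = C z g + ρ g * C z h := by
    intro z hz g h
    have h3 : C z (g * h) = ev ρ z (W (sg g • p₀) + sg g • W (sg h • p₀)) := by
      refine hker z hz _ _ ?_
      rw [Matrix.add_vecMul, Matrix.smul_vecMul, hW, hW, hW, haug, haug, haug, hsg, mul_smul,
        one_smul, smul_sub]
      abel
    rw [h3, ev_add, ev_smul, hext]
  -- the linear map
  let K := LinearMap.ker (mp ρ D₂)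
  have hK : ∀ z : K, mp ρ D₂ (z : b → L) = 0 := fun z => z.2
  let Θ : (K × L) →ₗ[Lᵐᵒᵖ] Z1 ρ :=
    { toFun := fun x => ⟨fun g => C x.1 g + (ρ g * x.2 - x.2), by
        intro g h
        simp only [hC _ (hK x.1) g h, map_mul, mul_add, mul_sub, mul_assoc]
        abel⟩
      map_add' := by
        intro x y
        ext g
        simp only [Prod.fst_add, Prod.snd_add, Submodule.coe_add, C, ev_add_left,
          mul_add, Pi.add_apply]
        abel
      map_smul' := by
        intro r x
        ext g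
        simp only [Prod.smul_fst, Prod.smul_snd, Submodule.coe_smul, C, ev_smul_left,
          Pi.smul_apply, RingHom.id_apply, MulOpposite.smul_eq_mul_unop, add_mul, sub_mul,
          mul_assoc] }
  -- the extension lemma
  have hF : ∀ (z : b → L) (u' : L), mp ρ D₂ z = 0 →
      (∀ g, C z g = ρ g * u' - u') →
      ∀ f : a → L, (∀ j, f j = ev ρ z (W (Pi.single j 1)) + t j • u') →
      mp ρ D₁ f = z ∧ ev ρ f p₀ = u' := by
    intro z u' hz hCz f hf
    let Fm : (a → MonoidAlgebra R G) → L := fun v => ev ρ z (W v) + aug t v • u'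
    have hadd : ∀ v v', Fm (v + v') = Fm v + Fm v' := by
      intro v v'
      have h3 : ev ρ z (W (v + v')) = ev ρ z (W v + W v') := by
        refine hker z hz _ _ ?_
        rw [Matrix.add_vecMul, hW, hW, hW, aug_add, add_smul]
        abel
      simp only [Fm]
      rw [h3, ev_add, aug_add, add_smul]
      abel
    have hsm : ∀ (x : MonoidAlgebra R G) v, Fm (x • v) = ex ρ x * Fm v := by
      intro x v
      induction x using MonoidAlgebra.induction_linear with
      | zero =>
        have h3 : ev ρ z (W ((0 : MonoidAlgebra R G) • v)) =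
            ev ρ z (0 : b → MonoidAlgebra R G) := by
          refine hker z hz _ _ ?_
          rw [hW, aug_smul]
          simp
        simp only [Fm]
        rw [h3, ev_zero, aug_smul]
        simp
      | add x y hx hy => rw [add_smul, hadd, hx, hy, map_add, add_mul]
      | single g q =>
        have e1 : (MonoidAlgebra.single g q : MonoidAlgebra R G) = q • sg g := by
          simp [sg, MonoidAlgebra.smul_single]
        have h3 : ev ρ z (W ((q • sg g) • v)) =
            ev ρ z ((q • sg g) • W v + (q * aug t v) • W (sg g • p₀)) := by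
          refine hker z hz _ _ ?_
          rw [Matrix.add_vecMul, Matrix.smul_vecMul, Matrix.smul_vecMul, hW, hW, hW, haug,
            aug_smul, map_smul, counit_single_one, one_smul, smul_sub, smul_eq_mul, mul_one,
            smul_sub, smul_assoc, smul_assoc, smul_comm (sg g) (aug t v) p₀, mul_smul, mul_smul]
          abel
        simp only [Fm]
        have ec : (Coalgebra.counit (q • sg g) : R) = q := by
          rw [map_smul, counit_single_one, smul_eq_mul, mul_one]
        have ee : (ex ρ (q • sg g) : L) = q • ρ g := by rw [map_smul, hext]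
        rw [e1, h3, ev_add, ev_smul, ev_ratsmul, aug_smul, ec, ee]
        have h4 : ev ρ z (W (sg g • p₀)) = ρ g * u' - u' := hCz g
        rw [h4, mul_add, mul_smul_comm, smul_sub, smul_mul_assoc, smul_mul_assoc, smul_smul]
        rw [mul_comm (aug t v) q]
        abel
    have hFm0 : Fm 0 = 0 := by
      have := hadd 0 0
      rw [add_zero] at this
      exact left_eq_add.1 this
    have hev : ∀ v, ev ρ f v = Fm v := by
      intro v
      have h3 : v = ∑ j, v j • (Pi.single j (1 : MonoidAlgebra R G) : a → MonoidAlgebra R G) := by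
        ext1 i
        simp only [Finset.sum_apply, Pi.smul_apply, smul_eq_mul, Pi.single_apply, mul_ite,
          mul_one, mul_zero, Finset.sum_ite_eq, Finset.mem_univ, if_true]
      have h4 : ∀ s : Finset a, Fm (∑ j ∈ s, v j •
          (Pi.single j (1 : MonoidAlgebra R G) : a → MonoidAlgebra R G)) =
          ∑ j ∈ s, ex ρ (v j) * f j := by
        intro s
        induction s using Finset.induction_on with
        | empty => simpa using hFm0
        | insert j s hj ih =>
          rw [Finset.sum_insert hj, Finset.sum_insert hj, hadd, hsm, ih, hf j]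
          congr 2
          simp only [Fm]
          congr 2
          unfold aug
          rw [Finset.sum_eq_single j]
          · simp
          · intro i _ hij
            simp [Pi.single_eq_of_ne hij]
          · simp
      rw [h3, h4, ← h3]
      rfl
    constructor
    · ext i
      have h3 : ev ρ (mp ρ D₁ f) (Pi.single i (1 : MonoidAlgebra R G)) =
          ev ρ z (Pi.single i (1 : MonoidAlgebra R G)) := by
        rw [← ev_vecMul, hev]
        have h5 : aug t ((Pi.single i (1 : MonoidAlgebra R G) : b → MonoidAlgebra R G) ᵥ* D₁) = 0 :=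
          (h1' _).2 ⟨_, rfl⟩
        simp only [Fm]
        rw [h5, zero_smul, add_zero]
        refine hker z hz _ _ ?_
        rw [hW, h5, zero_smul, sub_zero]
      rw [ev_single, ev_single] at h3
      exact h3
    · rw [hev]
      simp only [Fm]
      have h3 : ev ρ z (W p₀) = ev ρ z (0 : b → MonoidAlgebra R G) := by
        refine hker z hz _ _ ?_
        rw [hW, hp₀, one_smul, sub_self, Matrix.zero_vecMul]
      rw [h3, ev_zero, zero_add, hp₀, one_smul]
  -- the second linear map
  let Λ : (K × L) →ₗ[Lᵐᵒᵖ] (a → L) :=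
    { toFun := fun x j => ev ρ (x.1 : b → L) (W (Pi.single j 1)) - t j • x.2
      map_add' := by
        intro x y
        ext j
        simp only [Prod.fst_add, Prod.snd_add, Submodule.coe_add, ev_add_left, Pi.add_apply,
          smul_add]
        abel
      map_smul' := by
        intro r x
        ext j
        simp only [Prod.smul_fst, Prod.smul_snd, Submodule.coe_smul, ev_smul_left, Pi.smul_apply,
          RingHom.id_apply, MulOpposite.smul_eq_mul_unop, sub_mul, smul_mul_assoc] }
  have hinj : ∀ x ∈ LinearMap.ker Θ, Λ x = 0 → x = 0 := by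
    intro x hx hΛ
    have hx' : Θ x = 0 := hx
    have h3 : ∀ g, C x.1 g = ρ g * (-x.2) - (-x.2) := by
      intro g
      have h4 : C x.1 g + (ρ g * x.2 - x.2) = 0 := by
        have := congrArg (fun y : Z1 ρ => (y : G → L) g) hx'
        exact this
      rw [mul_neg, eq_neg_of_add_eq_zero_left h4]
      abel
    obtain ⟨h5, h6⟩ := hF x.1 (-x.2) (hK x.1) h3 (Λ x) (by
      intro j
      show ev ρ (x.1 : b → L) (W (Pi.single j 1)) - t j • x.2 = _
      rw [smul_neg, sub_eq_add_neg])
    rw [hΛ, map_zero] at h5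
    rw [hΛ, ev_zero_left] at h6
    ext1
    · exact Subtype.ext h5.symm
    · exact neg_eq_zero.1 h6.symm
  -- count dimensions
  have d1 := LinearMap.finrank_range_add_finrank_ker Θ
  have d2 : Module.finrank Lᵐᵒᵖ (LinearMap.range Θ) ≤ Module.finrank Lᵐᵒᵖ (Z1 ρ) :=
    Submodule.finrank_le _
  have d3 : Module.finrank Lᵐᵒᵖ (LinearMap.ker Θ) ≤ Module.finrank Lᵐᵒᵖ (a → L) := by
    refine LinearMap.finrank_le_finrank_of_injective (f := Λ.comp (LinearMap.ker Θ).subtype) ?_
    refine (injective_iff_map_eq_zero _).2 ?_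
    intro x hx
    exact Subtype.ext (hinj x x.2 hx)
  have d4 := LinearMap.finrank_range_add_finrank_ker (mp ρ D₂)
  have d5 : Module.finrank Lᵐᵒᵖ (K × L) = Module.finrank Lᵐᵒᵖ K + 1 := by
    rw [Module.finrank_prod, finrank_op]
  have d6 : Module.finrank Lᵐᵒᵖ (a → L) = Fintype.card a := finrank_op_pi a
  have d7 : Module.finrank Lᵐᵒᵖ (b → L) = Fintype.card b := finrank_op_pi b
  have d9 : Module.finrank Lᵐᵒᵖ K = Module.finrank Lᵐᵒᵖ (LinearMap.ker (mp ρ D₂)) := rfl
  omega

omit [Algebra R L] in
/-- orthogonal spaces of columns and of rows -/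
lemma orth {c : Type} [Fintype c] (U : Submodule Lᵐᵒᵖᵐᵒᵖ (c → Lᵐᵒᵖ)) (V : Submodule Lᵐᵒᵖ (c → L))
    (h : ∀ u ∈ U, ∀ v ∈ V, ∑ i, unop (u i) * v i = 0) :
    Module.finrank Lᵐᵒᵖᵐᵒᵖ U + Module.finrank Lᵐᵒᵖ V ≤ Fintype.card c := by
  classical
  have := finite_op (L := L)
  have := finite_op (L := Lᵐᵒᵖ)
  obtain ⟨V', hV'⟩ := V.exists_isCompl
  have e1 : Module.finrank Lᵐᵒᵖ V + Module.finrank Lᵐᵒᵖ V' = Fintype.card c := by
    rw [← finrank_op_pi (L := L) c]
    exact Submodule.finrank_add_eq_of_isCompl hV'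
  let B := Module.finBasis Lᵐᵒᵖ V'
  let T : U →ₗ[Lᵐᵒᵖᵐᵒᵖ] (Fin (Module.finrank Lᵐᵒᵖ V') → Lᵐᵒᵖ) :=
    { toFun := fun u k => op (∑ i, unop ((u : c → Lᵐᵒᵖ) i) * (B k : c → L) i)
      map_add' := by
        intro u u'
        ext k
        simp only [Submodule.coe_add, Pi.add_apply, unop_add, add_mul, Finset.sum_add_distrib,
          op_add]
      map_smul' := by
        intro x u
        ext k
        simp only [Submodule.coe_smul, Pi.smul_apply, RingHom.id_apply,
          MulOpposite.smul_eq_mul_unop, unop_mul, mul_assoc]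
        refine unop_injective ?_
        rw [unop_mul, unop_op, unop_op, Finset.mul_sum] }
  have hT : Function.Injective T := by
    refine (injective_iff_map_eq_zero _).2 ?_
    intro u hu
    -- the functional of u
    let fu : (c → L) →ₗ[Lᵐᵒᵖ] L :=
      { toFun := fun v => ∑ i, unop ((u : c → Lᵐᵒᵖ) i) * v i
        map_add' := by
          intro v v'
          simp only [Pi.add_apply, mul_add, Finset.sum_add_distrib]
        map_smul' := by
          intro x v
          simp only [Pi.smul_apply, RingHom.id_apply, MulOpposite.smul_eq_mul_unop, mul_assoc,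
            Finset.sum_mul] }
    have h1 : ∀ v ∈ V, fu v = 0 := fun v hv => h u u.2 v hv
    have h2 : ∀ v ∈ V', fu v = 0 := by
      have h3 : fu.comp V'.subtype = 0 := by
        refine B.ext fun k => ?_
        have h4 := congrFun hu k
        exact op_injective h4
      intro v hv
      exact congrArg (fun g : V' →ₗ[Lᵐᵒᵖ] L => g ⟨v, hv⟩) h3
    have h5 : ∀ v, fu v = 0 := by
      intro v
      have h6 : v ∈ V ⊔ V' := by rw [hV'.sup_eq_top]; trivial
      obtain ⟨y, hy, z, hz, rfl⟩ := Submodule.mem_sup.1 h6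
      rw [map_add, h1 y hy, h2 z hz, add_zero]
    ext i
    have h7 : ∑ j, unop ((u : c → Lᵐᵒᵖ) j) * (Pi.single i (1 : L) : c → L) j = 0 := h5 _
    rw [Finset.sum_eq_single i] at h7
    · simpa using h7
    · intro j _ hj
      simp [Pi.single_eq_of_ne hj]
    · simp
  have e2 := LinearMap.finrank_le_finrank_of_injective hT
  rw [finrank_op_pi (L := Lᵐᵒᵖ), Fintype.card_fin] at e2
  omega

lemma unop_mp_dual (w : G →* ℤˣ) (ρ : G →* L) {c d : Type} [Fintype c] [Fintype d]
    (D : Matrix d c (MonoidAlgebra R G)) (z' : d → Lᵐᵒᵖ) (i : c) :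
    unop (mp (opp w ρ) (dual w D) z' i) = ∑ j, unop (z' j) * ex ρ (D j i) := by
  rw [mp_apply, Finset.unop_sum]
  refine Finset.sum_congr rfl fun j _ => ?_
  rw [unop_mul]
  congr 1
  have h : ex (opp w ρ) (dual w D i j) = op (ex ρ (D j i)) := ex_antipode w ρ (D j i)
  rw [h, unop_op]

lemma pairing (w : G →* ℤˣ) (ρ : G →* L) {b c d : Type} [Fintype b] [Fintype c] [Fintype d]
    {D₂ : Matrix c b (MonoidAlgebra R G)} {D₃ : Matrix d c (MonoidAlgebra R G)}
    (h0 : D₃ * D₂ = 0) (z' : d → Lᵐᵒᵖ) (z : b → L) :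
    ∑ i, unop (mp (opp w ρ) (dual w D₃) z' i) * mp ρ D₂ z i = 0 := by
  have e3 : ∀ i, unop (mp (opp w ρ) (dual w D₃) z' i) * mp ρ D₂ z i =
      ∑ j, ∑ k, unop (z' j) * (ex ρ (D₃ j i * D₂ i k) * z k) := by
    intro i
    rw [unop_mp_dual, mp_apply, Finset.sum_mul]
    refine Finset.sum_congr rfl fun j _ => ?_
    rw [Finset.mul_sum]
    refine Finset.sum_congr rfl fun k _ => ?_
    rw [map_mul]
    simp only [mul_assoc]
  simp only [e3]
  rw [Finset.sum_comm]
  refine Finset.sum_eq_zero fun j _ => ?_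
  rw [Finset.sum_comm]
  refine Finset.sum_eq_zero fun k _ => ?_
  rw [← Finset.mul_sum, ← Finset.sum_mul, ← map_sum]
  have e4 : ∑ i, D₃ j i * D₂ i k = (D₃ * D₂) j k := rfl
  rw [e4, h0]
  simp

/-- HG1: the Euler characteristic inequality over a division ring -/
theorem finrank_add_ge {R : Type} [CommRing R] {G : Type} [Group G] {L : Type} [DivisionRing L]
    [Algebra R L] (w : G →* ℤˣ) (ρ : G →* L) {a b c d e : Type} [Fintype a]
    [Fintype b] [Fintype c] [Fintype d] [Fintype e]
    {D₁ : Matrix b a (MonoidAlgebra R G)} {D₂ : Matrix c b (MonoidAlgebra R G)}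
    {D₃ : Matrix d c (MonoidAlgebra R G)} {D₄ : Matrix e d (MonoidAlgebra R G)}
    (h : IsStart D₁ D₂) (h' : IsStart (dual w D₄) (dual w D₃)) (h0 : D₃ * D₂ = 0)
    [Module.Finite Lᵐᵒᵖ (Z1 ρ)] [Module.Finite Lᵐᵒᵖᵐᵒᵖ (Z1 (opp w ρ))] :
    2 + (Fintype.card b + Fintype.card d) ≤
      Module.finrank Lᵐᵒᵖ (Z1 ρ) + Module.finrank Lᵐᵒᵖᵐᵒᵖ (Z1 (opp w ρ)) +
        (Fintype.card a + Fintype.card c + Fintype.card e) := by
  have h1 := finrank_Z1_ge ρ h
  have h2 := finrank_Z1_ge (opp w ρ) h'
  have h3 := orth (LinearMap.range (mp (opp w ρ) (dual w D₃))) (LinearMap.range (mp ρ D₂)) (by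
    rintro _ ⟨z', rfl⟩ _ ⟨z, rfl⟩
    exact pairing w ρ h0 z' z)
  omega

end

end Pool.Agent.Helper28.HG
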